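import Pool.Agent.V11201.SH.Z

set_option autoImplicit false

/-! The zeros among the differences `a(n) = T(n+1) - T(n)` of consecutive Collatz stopping times have the
natural density `δ` of the integers which reach `1`; among the defined differences they have relative
density one. -/

namespace Pool.Agent.Results.MP_34aa70_nt.DensityOfZeros

open Filter Topology

/-- the Collatz function -/
def C (n : ℕ) : ℕ := if n % 2 = 0 then n / 2 else 3 * n + 1

/-- the least `k ≥ 0` with `C^k(n) = 1`, and `⊤ = ∞` (undefined) if there is none -/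
noncomputable def T (n : ℕ) : ℕ∞ := sInf {k : ℕ∞ | ∃ j : ℕ, C^[j] n = 1 ∧ k = j}

/-- `a(i)` is defined -/
def Defined (i : ℕ) : Prop := T i ≠ ⊤ ∧ T (i + 1) ≠ ⊤

/-- `a(i) = T(i+1) - T(i)` is defined and zero -/
def Zero (i : ℕ) : Prop := Defined i ∧ T (i + 1) = T i

/-- the number of the `1 ≤ i ≤ N` such that `a(i)` is defined -/
noncomputable def D (N : ℕ) : ℕ := {i : ℕ | 1 ≤ i ∧ i ≤ N ∧ Defined i}.ncard

/-- the number of the `1 ≤ i ≤ N` such that `a(i)` is defined and zero -/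
noncomputable def Z (N : ℕ) : ℕ := {i : ℕ | 1 ≤ i ∧ i ≤ N ∧ Zero i}.ncard

/-- the positive integers with the property `P` have the natural density `δ` -/
def HasDensity (P : ℕ → Prop) (δ : ℝ) : Prop :=
  Tendsto (fun N : ℕ => ({n : ℕ | 1 ≤ n ∧ n ≤ N ∧ P n}.ncard : ℝ) / N) atTop (𝓝 δ)

/-- DENSITY OF THE ZEROS.
(1) All but at most `A h √((1 + log (1 + h)) log log N / log N) N` of the `n ≤ N` satisfy
`T(n) = T(n+1) = ... = T(n+h)` (finite or infinite). In particular (`h = 1`) all but `O(√(log log N / log N)) N`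
of the `n ≤ N` satisfy `T(n+1) = T(n)`, and so at most so many defined differences `a(n)`, `n ≤ N`, are not zero.
(2) Let `δ` be the natural density of the integers which reach `1`; it exists, is positive, and it is `1` if
and only if the Collatz conjecture holds. Then `Z(N) / N` tends to `δ`, `Z(N) / D(N)` tends to `1`, and for
every `h` the `n` with `a(n) = ... = a(n+h) = 0` have the density `δ`.
(3) Hence Q1 holds if and only if `δ > 1/2`. -/
theorem result :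
    (∃ A : ℝ, 0 < A ∧ ∀ N : ℕ, 16 ≤ N → ∀ h : ℕ,
      ({n : ℕ | 1 ≤ n ∧ n ≤ N ∧ ¬ ∀ j ≤ h, T (n + j) = T n}.ncard : ℝ) ≤
        A * h * √ ((1 + Real.log (1 + h)) * (Real.log (Real.log N) / Real.log N)) * N) ∧
    (∃ A : ℝ, 0 < A ∧ ∀ N : ℕ, 16 ≤ N →
      ((D N : ℝ) - Z N) ≤ A * √ (Real.log (Real.log N) / Real.log N) * N) ∧
    ∃ δ : ℝ, 0 < δ ∧ δ ≤ 1 ∧ (δ = 1 ↔ ∀ n : ℕ, 1 ≤ n → T n ≠ ⊤) ∧
      HasDensity (fun n => T n ≠ ⊤) δ ∧
      Tendsto (fun N : ℕ => (Z N : ℝ) / N) atTop (𝓝 δ) ∧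
      Tendsto (fun N : ℕ => (Z N : ℝ) / D N) atTop (𝓝 1) ∧
      (∀ h : ℕ, HasDensity (fun n => ∀ j ≤ h, Zero (n + j)) δ) ∧
      (1 / 2 < liminf (fun N : ℕ => (Z N : ℝ) / N) atTop ↔ 1 / 2 < δ) := by
  obtain ⟨A, hA, hb⟩ := Pool.Agent.V11201.SH.Z.block_rate
  obtain ⟨δ, h0, h1, h2, h3⟩ := Pool.Agent.V11201.SH.Z.reach_dens
  have hfin : ∀ (P : ℕ → Prop) (N : ℕ), {n : ℕ | 1 ≤ n ∧ n ≤ N ∧ P n}.Finite :=
    fun P N => (Set.finite_Icc 1 N).subset fun _ h => ⟨h.1, h.2.1⟩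
  have hblock : ∀ h : ℕ, HasDensity (fun n => ∀ j ≤ h, Zero (n + j)) δ := by
    intro h
    refine Pool.Agent.H499R2.CO.HD_congr (Pool.Agent.V11201.SH.Z.block_dens (h + 1)) h3
      (fun n _ hn => ⟨fun h5 j hj => ?_, fun h5 => ?_⟩)
    · have e1 : T (n + j) = T n := hn j (by omega)
      have e2 : T (n + j + 1) = T n := hn (j + 1) (by omega)
      have h5' : T n ≠ ⊤ := h5
      refine ⟨⟨?_, ?_⟩, ?_⟩
      · rw [e1]; exact h5'
      · rw [e2]; exact h5'
      · rw [e1, e2]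
    · exact (h5 0 (Nat.zero_le _)).1.1
  have hZ : Tendsto (fun N : ℕ => (Z N : ℝ) / N) atTop (𝓝 δ) := by
    refine (hblock 0).congr fun N => ?_
    have e : {n : ℕ | 1 ≤ n ∧ n ≤ N ∧ ∀ j ≤ 0, Zero (n + j)} = {i : ℕ | 1 ≤ i ∧ i ≤ N ∧ Zero i} := by
      ext n
      constructor
      · rintro ⟨a1, a2, a3⟩
        exact ⟨a1, a2, a3 0 le_rfl⟩
      · rintro ⟨a1, a2, a3⟩
        refine ⟨a1, a2, fun j hj => ?_⟩
        have : j = 0 := by omega
        subst this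
        exact a3
    rw [e]
    rfl
  have hD : Tendsto (fun N : ℕ => (D N : ℝ) / N) atTop (𝓝 δ) := by
    refine Pool.Agent.H499R2.CO.HD_congr (Pool.Agent.V11201.SH.Z.block_dens 1) h3
      (fun n _ hn => ⟨fun h5 => ⟨h5, ?_⟩, fun h5 => h5.1⟩)
    have e1 : T (n + 1) = T n := hn 1 le_rfl
    rw [e1]; exact h5
  refine ⟨⟨A, hA, hb⟩, ⟨A * √ (1 + Real.log 2), by
    have : 0 < Real.log 2 := Real.log_pos (by norm_num)
    positivity, fun N hN => ?_⟩, δ, h0, h1, h2, h3, hZ, ?_, hblock, ?_⟩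
  · have h4 := hb N hN 1
    have h5 : (D N : ℝ) ≤ Z N + ({n : ℕ | 1 ≤ n ∧ n ≤ N ∧ ¬ ∀ j ≤ 1, T (n + j) = T n}.ncard : ℝ) := by
      have hsub : {i : ℕ | 1 ≤ i ∧ i ≤ N ∧ Defined i} ⊆ {i : ℕ | 1 ≤ i ∧ i ≤ N ∧ Zero i} ∪
          {n : ℕ | 1 ≤ n ∧ n ≤ N ∧ ¬ ∀ j ≤ 1, T (n + j) = T n} := by
        rintro n ⟨a1, a2, a3⟩
        by_cases h6 : T (n + 1) = T n
        · exact Or.inl ⟨a1, a2, a3, h6⟩
        · exact Or.inr ⟨a1, a2, fun h7 => h6 (h7 1 le_rfl)⟩
      exact_mod_cast (Set.ncard_le_ncard hsub ((hfin _ N).union (hfin _ N))).trans (Set.ncard_union_le _ _)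
    have h6 : ({n : ℕ | 1 ≤ n ∧ n ≤ N ∧ ¬ ∀ j ≤ 1, T (n + j) = T n}.ncard : ℝ) ≤
        A * √ (1 + Real.log 2) * √ (Real.log (Real.log N) / Real.log N) * N := by
      refine h4.trans (le_of_eq ?_)
      have hl2 : 0 ≤ 1 + Real.log 2 := by
        have : 0 < Real.log 2 := Real.log_pos (by norm_num)
        linarith
      have e : (1 + Real.log (1 + ((1 : ℕ) : ℝ))) = 1 + Real.log 2 := by
        norm_num
      rw [e, Real.sqrt_mul hl2]
      push_cast
      unfold Pool.Agent.V11201.SH.lam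
      ring
    linarith
  · have h4 := hZ.div hD h0.ne'
    rw [div_self h0.ne'] at h4
    refine h4.congr' ?_
    filter_upwards [eventually_ge_atTop 1] with N hN
    have hNpos : (0 : ℝ) < N := by exact_mod_cast hN
    simp only [Pi.div_apply]
    rw [div_div_div_cancel_right₀ hNpos.ne']
  · rw [hZ.liminf_eq]

end Pool.Agent.Results.MP_34aa70_nt.DensityOfZeros
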